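import Pool.Agent.Helper70.RN.Sheet

set_option autoImplicit false
set_option linter.unusedSimpArgs false

namespace Pool.Helper70.RN

open Polynomial

/-! ### rational polynomials -/

noncomputable def S29.F (u : Fin 4 → ℚ) : ℚ[X] :=
  C 48 * X ^ 3 + C (96 * g0 u + 4 * e2 u ^ 2) * X ^ 2 +
  C (48 * h0 u + 6 * h3 u * e3 u + 4 * e2 u * h2 u) * X +
  C (-3 * h3 u * h1 u + h2 u ^ 2)

noncomputable def S29.G (u : Fin 4 → ℚ) : ℚ[X] :=
  C (576 * e2 u) * X ^ 4 +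
  C (288 * h2 u + 1152 * e2 u * g0 u - 432 * e3 u ^ 2 - 16 * e2 u ^ 3) * X ^ 3 +
  C (288 * (2 * g0 u * h2 u + 2 * e2 u * h0 u) - 36 * h3 u * e2 u * e3 u +
    432 * e3 u * h1 u - 27 * h3 u ^ 2 - 24 * e2 u ^ 2 * h2 u) * X ^ 2 +
  C (288 * h2 u * h0 u + 9 * h3 u * (2 * e2 u * h1 u - 2 * e3 u * h2 u) -
    108 * h1 u ^ 2 - 54 * g0 u * h3 u ^ 2 - 12 * e2 u * h2 u ^ 2) * X +
  C (9 * h3 u * h2 u * h1 u - 27 * h0 u * h3 u ^ 2 - 2 * h2 u ^ 3)

theorem S29.eval_F (u : Fin 4 → ℚ) (t : ℚ) : (S29.F u).eval t = fI u t := by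
  simp only [S29.F, eval_add, eval_mul, eval_C, eval_pow, eval_X, fI, q4, q0, q3, q1, q2]
  ring

theorem S29.eval_G (u : Fin 4 → ℚ) (t : ℚ) : (S29.G u).eval t = fJ u t := by
  simp only [S29.G, eval_add, eval_mul, eval_C, eval_pow, eval_X, fJ, q4, q0, q3, q1, q2]
  ring

theorem S29.deg_F (u : Fin 4 → ℚ) : (S29.F u).natDegree = 3 := natDegree_cubic (by norm_num)

theorem S29.lc_F (u : Fin 4 → ℚ) : (S29.F u).leadingCoeff = 48 := leadingCoeff_cubic (by norm_num)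

theorem S29.deg4 (a b c d e : ℚ) (h : a ≠ 0) :
    (C a * X ^ 4 + C b * X ^ 3 + C c * X ^ 2 + C d * X + C e : ℚ[X]).natDegree = 4 := by
  compute_degree!

theorem S29.deg_G (u : Fin 4 → ℚ) (h : e2 u ≠ 0) : (S29.G u).natDegree = 4 :=
  S29.deg4 _ _ _ _ _ (mul_ne_zero (by norm_num) h)

/-- the cast of `u` -/
def S29.cu (u : Fin 4 → ℤ) : Fin 4 → ℚ := fun i => (u i : ℚ)

section cast
variable (u : Fin 4 → ℤ)

theorem S29.k1 : ((n1 u : ℤ) : ℚ) = n1 (S29.cu u) := by simp [n1, S29.cu]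
theorem S29.k2 : ((n2 u : ℤ) : ℚ) = n2 (S29.cu u) := by simp [n2, S29.cu]
theorem S29.k3 : ((m1 u : ℤ) : ℚ) = m1 (S29.cu u) := by simp [m1, S29.cu]
theorem S29.k4 : ((m2 u : ℤ) : ℚ) = m2 (S29.cu u) := by simp [m2, S29.cu]
theorem S29.k5 : ((pr u : ℤ) : ℚ) = pr (S29.cu u) := by simp [pr, S29.cu]
theorem S29.k6 : ((cc u : ℤ) : ℚ) = cc (S29.cu u) := by simp [cc, S29.k1, S29.k2]
theorem S29.k0 (i : Fin 4) : ((u i : ℤ) : ℚ) = S29.cu u i := rfl
theorem S29.k7 : ((e2 u : ℤ) : ℚ) = e2 (S29.cu u) := by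
  simp only [e2, Int.cast_add, Int.cast_sub, Int.cast_mul, Int.cast_pow,
    Int.cast_neg, Int.cast_ofNat, S29.k1, S29.k2, S29.k0]
theorem S29.k8 : ((e3 u : ℤ) : ℚ) = e3 (S29.cu u) := by
  simp only [e3, Int.cast_add, Int.cast_sub, Int.cast_mul, Int.cast_pow,
    Int.cast_neg, Int.cast_ofNat, S29.k6, S29.k5, S29.k0]
theorem S29.k9 : ((g0 u : ℤ) : ℚ) = g0 (S29.cu u) := by
  simp only [g0, Int.cast_add, Int.cast_sub, Int.cast_mul, Int.cast_pow,
    Int.cast_neg, Int.cast_ofNat, S29.k1, S29.k2, S29.k3, S29.k4, S29.k0]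
theorem S29.k10 : ((l1 u : ℤ) : ℚ) = l1 (S29.cu u) := by
  simp only [l1, Int.cast_add, Int.cast_sub, Int.cast_mul, Int.cast_pow,
    Int.cast_neg, Int.cast_ofNat, S29.k1, S29.k2, S29.k0]
theorem S29.k11 : ((d0 u : ℤ) : ℚ) = d0 (S29.cu u) := by
  simp only [d0, Int.cast_add, Int.cast_sub, Int.cast_mul, Int.cast_pow,
    Int.cast_neg, Int.cast_ofNat, S29.k1, S29.k2, S29.k3, S29.k4, S29.k5, S29.k6, S29.k0]
theorem S29.k12 : ((h3 u : ℤ) : ℚ) = h3 (S29.cu u) := by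
  simp only [h3, Int.cast_add, Int.cast_sub, Int.cast_mul, Int.cast_pow,
    Int.cast_neg, Int.cast_ofNat, S29.k6, S29.k7, S29.k8, S29.k9, S29.k10, S29.k11, S29.k0]
theorem S29.k13 : ((h2 u : ℤ) : ℚ) = h2 (S29.cu u) := by
  simp only [h2, Int.cast_add, Int.cast_sub, Int.cast_mul, Int.cast_pow,
    Int.cast_neg, Int.cast_ofNat, S29.k6, S29.k7, S29.k8, S29.k9, S29.k10, S29.k11, S29.k0]
theorem S29.k14 : ((h1 u : ℤ) : ℚ) = h1 (S29.cu u) := by
  simp only [h1, Int.cast_add, Int.cast_sub, Int.cast_mul, Int.cast_pow,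
    Int.cast_neg, Int.cast_ofNat, S29.k6, S29.k7, S29.k8, S29.k9, S29.k10, S29.k11, S29.k0]
theorem S29.k15 : ((h0 u : ℤ) : ℚ) = h0 (S29.cu u) := by
  simp only [h0, Int.cast_add, Int.cast_sub, Int.cast_mul, Int.cast_pow,
    Int.cast_neg, Int.cast_ofNat, S29.k6, S29.k7, S29.k8, S29.k9, S29.k10, S29.k11, S29.k0]

theorem S29.cast_fI (t : ℤ) : ((fI u t : ℤ) : ℚ) = fI (S29.cu u) (t : ℚ) := by
  simp only [fI, q4, q0, q3, q1, q2, Int.cast_add, Int.cast_sub, Int.cast_mul, Int.cast_pow,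
    Int.cast_neg, Int.cast_ofNat, S29.k7, S29.k8, S29.k9, S29.k12, S29.k13, S29.k14, S29.k15]

theorem S29.cast_fJ (t : ℤ) : ((fJ u t : ℤ) : ℚ) = fJ (S29.cu u) (t : ℚ) := by
  simp only [fJ, q4, q0, q3, q1, q2, Int.cast_add, Int.cast_sub, Int.cast_mul, Int.cast_pow,
    Int.cast_neg, Int.cast_ofNat, S29.k7, S29.k8, S29.k9, S29.k12, S29.k13, S29.k14, S29.k15]
end cast

theorem S29.MM_pos : 0 < MM := by
  have h5 : MM = 1728 * (Nat.factorial QQ : ℤ) := by rw [MM]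
  have h6 : (0 : ℤ) < (Nat.factorial QQ : ℤ) := Int.natCast_pos.2 (Nat.factorial_pos QQ)
  rw [h5]
  exact mul_pos (by norm_num) h6

theorem S29.dvd_MM (n : ℕ) (h1 : 0 < n) (h2 : n ≤ 10000000) : (n : ℤ) ∣ MM := by
  have h3 : n ≤ QQ := by
    unfold QQ
    exact h2.trans (Nat.le_add_left _ _)
  have h4 : (n : ℤ) ∣ (Nat.factorial QQ : ℤ) :=
    Int.natCast_dvd_natCast.2 (Nat.dvd_factorial h1 h3)
  have h5 : MM = 1728 * (Nat.factorial QQ : ℤ) := by rw [MM]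
  rw [h5]
  exact Dvd.dvd.mul_left h4 1728

attribute [local irreducible] QQ MM fI fJ

theorem S29.uu_eq (a : Fin 4 → ℕ) (i : Fin 4) : uu a i = ub i + MM * (a i : ℤ) := by
  simp only [uu]

theorem S29.cong (m : ℕ) (T : (Fin 4 → ℕ) × ℕ) : Cong (ww m T) := by
  refine ⟨fun i => ⟨(T.1 i : ℤ), ?_⟩, ⟨(m : ℤ) ^ 8 + (T.2 : ℤ), ?_⟩⟩
  · show uu T.1 i - ub i = _
    rw [S29.uu_eq]
    ring
  · show 15 + MM * ((m : ℤ) ^ 8 + (T.2 : ℤ)) - 15 = _
    ring

theorem S29.e2_ne (a : Fin 4 → ℕ) : e2 (S29.cu (uu a)) ≠ 0 := by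
  have hU : (0 : ℤ) < uu a 0 := by
    have h : 0 ≤ MM * (a 0 : ℤ) := mul_nonneg S29.MM_pos.le (Int.natCast_nonneg _)
    rw [S29.uu_eq]
    have : ub 0 = 1 := rfl
    rw [this]
    linarith
  have hU' : (0 : ℚ) < S29.cu (uu a) 0 := by
    show (0 : ℚ) < ((uu a 0 : ℤ) : ℚ)
    exact_mod_cast hU
  apply ne_of_lt
  unfold e2 n1 n2
  nlinarith [sq_nonneg (S29.cu (uu a) 1), sq_nonneg (S29.cu (uu a) 2),
    sq_nonneg (S29.cu (uu a) 3), mul_pos hU' hU']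

theorem S29.uu_inj {a a' : Fin 4 → ℕ} (h : uu a = uu a') : a = a' := by
  funext i
  have h1 := congrFun h i
  rw [S29.uu_eq, S29.uu_eq] at h1
  have h3 : MM * (a i : ℤ) = MM * (a' i : ℤ) := by linarith
  exact_mod_cast mul_left_cancel₀ S29.MM_pos.ne' h3

/-- `z²` -/
noncomputable def S29.zz (m c : ℕ) : ℤ := (15 + MM * ((m : ℤ) ^ 8 + (c : ℤ))) ^ 2

theorem S29.zz_inj {m c c' : ℕ} (h : S29.zz m c = S29.zz m c') : c = c' := by
  have hM := S29.MM_pos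
  have h0 : ∀ c : ℕ, 0 ≤ 15 + MM * ((m : ℤ) ^ 8 + (c : ℤ)) := fun c => by
    have h2 : (0 : ℤ) ≤ (m : ℤ) ^ 8 + (c : ℤ) := by positivity
    have := mul_nonneg hM.le h2
    linarith
  have h1 : 15 + MM * ((m : ℤ) ^ 8 + (c : ℤ)) = 15 + MM * ((m : ℤ) ^ 8 + (c' : ℤ)) :=
    (pow_left_inj₀ (h0 c) (h0 c') (by norm_num)).1 h
  have h3 : MM * (c : ℤ) = MM * (c' : ℤ) := by linarith
  exact_mod_cast mul_left_cancel₀ hM.ne' h3

open Classical in
theorem S29.offdiag (hCURVE : Pool.Helper70.RT.ST_CURVE) (hINJ : ST_INJ) (m : ℕ)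
    (a a' : Fin 4 → ℕ) (hne : a ≠ a') (R : Finset ℕ) :
    ((R ×ˢ R).filter (fun y : ℕ × ℕ =>
      fI (uu a) (S29.zz m y.1) = fI (uu a') (S29.zz m y.2) ∧
      fJ (uu a) (S29.zz m y.1) = fJ (uu a') (S29.zz m y.2))).card ≤ 100 := by
  by_contra hcon
  push Not at hcon
  set Y := ((R ×ˢ R).filter (fun y : ℕ × ℕ =>
      fI (uu a) (S29.zz m y.1) = fI (uu a') (S29.zz m y.2) ∧
      fJ (uu a) (S29.zz m y.1) = fJ (uu a') (S29.zz m y.2))) with hY
  set S : Finset (ℚ × ℚ) := Y.image (fun y => ((S29.zz m y.1 : ℚ), (S29.zz m y.2 : ℚ))) with hS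
  have hcard : S.card = Y.card := by
    apply Finset.card_image_of_injective
    intro y y' h
    obtain ⟨h1, h2⟩ := Prod.mk.inj h
    exact Prod.ext (S29.zz_inj (by exact_mod_cast h1)) (S29.zz_inj (by exact_mod_cast h2))
  obtain ⟨β, hf, hg, p, hp, hpβ⟩ := hCURVE
    (S29.F (S29.cu (uu a))) (S29.F (S29.cu (uu a')))
    (S29.G (S29.cu (uu a))) (S29.G (S29.cu (uu a')))
    (S29.deg_F _) (S29.deg_F _) (S29.deg_G _ (S29.e2_ne _)) (S29.deg_G _ (S29.e2_ne _))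
    (by rw [S29.lc_F, S29.lc_F]) S (by
      intro p hp
      obtain ⟨y, hy, rfl⟩ := Finset.mem_image.1 hp
      obtain ⟨h1, h2⟩ := (Finset.mem_filter.1 hy).2
      constructor
      · rw [S29.eval_F, S29.eval_F, ← S29.cast_fI, ← S29.cast_fI, h1]
      · rw [S29.eval_G, S29.eval_G, ← S29.cast_fJ, ← S29.cast_fJ, h2]) (by rw [hcard]; exact hcon.le)
  obtain ⟨y, hy, rfl⟩ := Finset.mem_image.1 hp
  have hβ : β = ((S29.zz m y.2 - S29.zz m y.1 : ℤ) : ℚ) := by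
    push_cast
    have : (S29.zz m y.2 : ℚ) = (S29.zz m y.1 : ℚ) + β := hpβ
    linarith
  have h11 : (11 : ℤ) ∣ S29.zz m y.2 - S29.zz m y.1 := by
    have h : S29.zz m y.2 - S29.zz m y.1 = MM * (((y.2 : ℤ) - y.1) *
        (30 + MM * (2 * (m : ℤ) ^ 8 + y.2 + y.1))) := by
      unfold S29.zz
      ring
    rw [h]
    exact Dvd.dvd.mul_right (S29.dvd_MM 11 (by norm_num) (by norm_num)) _
  have hkey : ∀ τ : ℤ, fI (uu a') (τ + (S29.zz m y.2 - S29.zz m y.1)) = fI (uu a) τ ∧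
      fJ (uu a') (τ + (S29.zz m y.2 - S29.zz m y.1)) = fJ (uu a) τ := by
    intro τ
    constructor
    · have h := congrArg (fun P : ℚ[X] => P.eval (τ : ℚ)) hf
      simp only [eval_comp, eval_add, eval_X, eval_C, S29.eval_F] at h
      have h' : ((fI (uu a') (τ + (S29.zz m y.2 - S29.zz m y.1)) : ℤ) : ℚ) =
          ((fI (uu a) τ : ℤ) : ℚ) := by
        rw [S29.cast_fI, S29.cast_fI, Int.cast_add, ← hβ]
        exact h
      exact Int.cast_injective h'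
    · have h := congrArg (fun P : ℚ[X] => P.eval (τ : ℚ)) hg
      simp only [eval_comp, eval_add, eval_X, eval_C, S29.eval_G] at h
      have h' : ((fJ (uu a') (τ + (S29.zz m y.2 - S29.zz m y.1)) : ℤ) : ℚ) =
          ((fJ (uu a) τ : ℤ) : ℚ) := by
        rw [S29.cast_fJ, S29.cast_fJ, Int.cast_add, ← hβ]
        exact h
      exact Int.cast_injective h'
  exact hne (S29.uu_inj (hINJ (ww m (a, 0)) (ww m (a', 0)) (S29.cong _ _) (S29.cong _ _) _ h11 hkey))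

open Classical in
theorem S29.diag (m : ℕ) (a : Fin 4 → ℕ) (R : Finset ℕ) :
    ((R ×ˢ R).filter (fun y : ℕ × ℕ =>
      fI (uu a) (S29.zz m y.1) = fI (uu a) (S29.zz m y.2))).card ≤ 3 * R.card := by
  set Y := ((R ×ˢ R).filter (fun y : ℕ × ℕ =>
      fI (uu a) (S29.zz m y.1) = fI (uu a) (S29.zz m y.2))) with hY
  have h1 : Y.card ≤ 3 * (Y.image Prod.fst).card := by
    refine Finset.card_le_mul_card_image Y 3 ?_
    intro c _
    set P : ℚ[X] := S29.F (S29.cu (uu a)) with hP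
    set v : ℚ := ((fI (uu a) (S29.zz m c) : ℤ) : ℚ) with hv
    set Q : ℚ[X] := P - C v with hQ
    have hd : Q.natDegree = 3 := by rw [hQ, natDegree_sub_C, hP, S29.deg_F]
    have hQ0 : Q ≠ 0 := by
      intro h
      rw [h] at hd
      simp at hd
    have h2 : (Y.filter (fun x => x.1 = c)).card ≤ Q.roots.toFinset.card := by
      refine Finset.card_le_card_of_injOn (fun y : ℕ × ℕ => (S29.zz m y.2 : ℚ)) ?_ ?_
      · intro y hy
        obtain ⟨hyY, hyc⟩ := Finset.mem_filter.1 hy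
        have h3 := (Finset.mem_filter.1 hyY).2
        simp only [Finset.mem_coe, Multiset.mem_toFinset]
        rw [mem_roots hQ0, IsRoot, hQ, eval_sub, eval_C, hP, S29.eval_F, ← S29.cast_fI, ← h3, hyc,
          hv, sub_self]
      · intro y hy y' hy' h
        have e1 := (Finset.mem_filter.1 hy).2
        have e2 := (Finset.mem_filter.1 hy').2
        have h' : ((S29.zz m y.2 : ℤ) : ℚ) = ((S29.zz m y'.2 : ℤ) : ℚ) := h
        exact Prod.ext (e1.trans e2.symm) (S29.zz_inj (by exact_mod_cast h'))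
    exact h2.trans ((Multiset.toFinset_card_le _).trans ((card_roots' Q).trans hd.le))
  refine h1.trans (Nat.mul_le_mul_left _ ?_)
  apply Finset.card_le_card
  intro c hc
  obtain ⟨y, hy, rfl⟩ := Finset.mem_image.1 hc
  exact (Finset.mem_product.1 (Finset.mem_filter.1 hy).1).1

open Classical in
/-- row PAIR -/
theorem st_PAIR (hREL : ST_REL) (hCURVE : Pool.Helper70.RT.ST_CURVE) (hINJ : ST_INJ)
    (hWIN : ST_WIN) (hPR2 : ST_PR2) : ST_PAIR := by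
  intro ε hε
  obtain ⟨K, hK, hwin⟩ := hWIN
  obtain ⟨C0, hC0, hpr⟩ := hPR2 K ε hε
  refine ⟨100 * C0 + 3, by positivity, ?_⟩
  intro m hm
  set F := (Box m ×ˢ Box m).filter (fun p => cA (ww m p.1) = cA (ww m p.2) ∧
    cB (ww m p.1) = cB (ww m p.2)) with hF
  set B4 : Finset (Fin 4 → ℕ) := Fintype.piFinset fun _ : Fin 4 => Finset.range (m ^ 3) with hB4
  set PP : Finset ((Fin 4 → ℕ) × (Fin 4 → ℕ)) := ((B4 ×ˢ B4).filter (fun p =>
      |e2 (uu p.1) - e2 (uu p.2)| ≤ K * (m : ℤ) ^ 2)) with hPP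
  have hmem : ∀ p ∈ F, p.1 ∈ Box m ∧ p.2 ∈ Box m := by
    intro p hp
    exact Finset.mem_product.1 (Finset.mem_filter.1 hp).1
  have hbox : ∀ T ∈ Box m, T.1 ∈ B4 ∧ T.2 ∈ Finset.range (m ^ 8) := by
    intro T hT
    exact Finset.mem_product.1 hT
  have hIJ : ∀ p ∈ F,
      fI (uu p.1.1) (S29.zz m p.1.2) = fI (uu p.2.1) (S29.zz m p.2.2) ∧
      fJ (uu p.1.1) (S29.zz m p.1.2) = fJ (uu p.2.1) (S29.zz m p.2.2) := by
    intro p hp
    obtain ⟨h1, h2⟩ := (Finset.mem_filter.1 hp).2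
    obtain ⟨r1, r2, -⟩ := hREL (ww m p.1) (S29.cong _ _)
    obtain ⟨r3, r4, -⟩ := hREL (ww m p.2) (S29.cong _ _)
    rw [h1] at r1
    rw [h2] at r2
    have e1 : ∀ T : (Fin 4 → ℕ) × ℕ, (ww m T).1 = uu T.1 := fun T => by simp only [ww]
    have e3 : ∀ T : (Fin 4 → ℕ) × ℕ, (ww m T).2 ^ 2 = S29.zz m T.2 := fun T => by
      simp only [ww, S29.zz]
    rw [e1, e3] at r1 r2 r3 r4
    constructor
    · linarith
    · linarith
  set key : ((Fin 4 → ℕ) × ℕ) × ((Fin 4 → ℕ) × ℕ) → (Fin 4 → ℕ) × (Fin 4 → ℕ) :=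
    fun p => (p.1.1, p.2.1) with hkey
  have hmap : ∀ p ∈ F, key p ∈ PP := by
    intro p hp
    obtain ⟨m1, m2⟩ := hmem p hp
    obtain ⟨h1, h2⟩ := (Finset.mem_filter.1 hp).2
    refine Finset.mem_filter.2 ⟨Finset.mem_product.2 ⟨(hbox _ m1).1, (hbox _ m2).1⟩, ?_⟩
    exact hwin m hm p.1 m1 p.2 m2 h1 h2
  have hfib : ∀ x ∈ PP, (F.filter (fun p => key p = x)).card ≤
      100 + (if x.1 = x.2 then 3 * m ^ 8 else 0) := by
    intro x _
    have hinj' : Set.InjOn (fun p : ((Fin 4 → ℕ) × ℕ) × ((Fin 4 → ℕ) × ℕ) => (p.1.2, p.2.2))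
        (F.filter (fun p => key p = x) : Set _) := by
      intro p hp p' hp' h
      have h1 := (Finset.mem_filter.1 hp).2
      have h2 := (Finset.mem_filter.1 hp').2
      have h3 := h1.trans h2.symm
      obtain ⟨⟨p1, p2⟩, ⟨p3, p4⟩⟩ := p
      obtain ⟨⟨q1, q2⟩, ⟨q3, q4⟩⟩ := p'
      simp only [hkey, Prod.mk.injEq] at h h3 ⊢
      exact ⟨⟨h3.1, h.1⟩, ⟨h3.2, h.2⟩⟩
    by_cases hx : x.1 = x.2
    · rw [if_pos hx]
      refine le_trans ?_ (Nat.le_add_left _ _)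
      have h0 := S29.diag m x.1 (Finset.range (m ^ 8))
      rw [Finset.card_range] at h0
      refine le_trans (Finset.card_le_card_of_injOn _ ?_ hinj') h0
      intro p hp
      obtain ⟨hpF, hpx⟩ := Finset.mem_filter.1 hp
      obtain ⟨m1, m2⟩ := hmem p hpF
      obtain ⟨g1, -⟩ := hIJ p hpF
      have e1 : p.1.1 = x.1 := congrArg Prod.fst hpx
      have e2 : p.2.1 = x.1 := (congrArg Prod.snd hpx).trans hx.symm
      rw [e1, e2] at g1
      exact Finset.mem_coe.2 (Finset.mem_filter.2 ⟨Finset.mem_product.2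
        ⟨(hbox _ m1).2, (hbox _ m2).2⟩, g1⟩)
    · rw [if_neg hx, add_zero]
      have h0 := S29.offdiag hCURVE hINJ m x.1 x.2 hx (Finset.range (m ^ 8))
      refine le_trans (Finset.card_le_card_of_injOn _ ?_ hinj') h0
      intro p hp
      obtain ⟨hpF, hpx⟩ := Finset.mem_filter.1 hp
      obtain ⟨m1, m2⟩ := hmem p hpF
      have g := hIJ p hpF
      have e1 : p.1.1 = x.1 := congrArg Prod.fst hpx
      have e2 : p.2.1 = x.2 := congrArg Prod.snd hpx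
      rw [e1, e2] at g
      exact Finset.mem_coe.2 (Finset.mem_filter.2 ⟨Finset.mem_product.2
        ⟨(hbox _ m1).2, (hbox _ m2).2⟩, g⟩)
  have hcardF : F.card ≤ 100 * PP.card + 3 * m ^ 20 := by
    rw [Finset.card_eq_sum_card_fiberwise hmap]
    refine (Finset.sum_le_sum hfib).trans ?_
    rw [Finset.sum_add_distrib, Finset.sum_const, smul_eq_mul]
    have hdiag : ∑ x ∈ PP, (if x.1 = x.2 then 3 * m ^ 8 else 0) ≤ 3 * m ^ 20 := by
      rw [← Finset.sum_filter, Finset.sum_const, smul_eq_mul]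
      have h12 : (PP.filter (fun x => x.1 = x.2)).card ≤ m ^ 12 := by
        have h1 : (PP.filter (fun x => x.1 = x.2)).card ≤ B4.card := by
          refine Finset.card_le_card_of_injOn Prod.fst ?_ ?_
          · intro x hx
            exact (Finset.mem_product.1 (Finset.mem_filter.1 (Finset.mem_filter.1 hx).1).1).1
          · intro x hx x' hx' h
            have e1 := (Finset.mem_filter.1 hx).2
            have e2 := (Finset.mem_filter.1 hx').2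
            exact Prod.ext h (e1.symm.trans (h.trans e2))
        refine h1.trans (le_of_eq ?_)
        simp only [hB4, Fintype.card_piFinset, Finset.card_range, Finset.prod_const,
          Finset.card_univ, Fintype.card_fin]
        ring
      calc (PP.filter (fun x => x.1 = x.2)).card * (3 * m ^ 8) ≤ m ^ 12 * (3 * m ^ 8) :=
            Nat.mul_le_mul_right _ h12
        _ = 3 * m ^ 20 := by ring
    have : PP.card * 100 = 100 * PP.card := mul_comm _ _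
    omega
  have h1 : (F.card : ℝ) ≤ 100 * (PP.card : ℝ) + 3 * (m : ℝ) ^ 20 := by
    exact_mod_cast hcardF
  have h2 : (PP.card : ℝ) ≤ C0 * (m : ℝ) ^ (20 + ε) := hpr m hm
  have h3 : (m : ℝ) ^ 20 ≤ (m : ℝ) ^ (20 + ε) := by
    have hm1 : (1 : ℝ) ≤ m := by exact_mod_cast hm
    calc (m : ℝ) ^ 20 = (m : ℝ) ^ ((20 : ℕ) : ℝ) := by rw [Real.rpow_natCast]
      _ ≤ (m : ℝ) ^ (20 + ε) := by
        apply Real.rpow_le_rpow_of_exponent_le hm1
        push_cast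
        linarith
  calc (F.card : ℝ) ≤ 100 * (PP.card : ℝ) + 3 * (m : ℝ) ^ 20 := h1
    _ ≤ 100 * (C0 * (m : ℝ) ^ (20 + ε)) + 3 * (m : ℝ) ^ (20 + ε) := by gcongr
    _ = (100 * C0 + 3) * (m : ℝ) ^ (20 + ε) := by ring

end Pool.Helper70.RN
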